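import Mathlib

set_option autoImplicit false

/-!
# Numbers for large `n`
-/

namespace Pool.Agent.TH708.Ips

theorem big (c : ℕ) {n L : ℕ} (hn : 2 ^ (1200 * (2 * c + 9)) ≤ n) (hL : L ≤ n ^ c + c)
    (hb : 2 ^ ((Nat.log 2 n) ^ 2 / 1200) ≤ L) : False := by
  have hn0 : n ≠ 0 := by
    have : 0 < 2 ^ (1200 * (2 * c + 9)) := by positivity
    omega
  obtain ⟨N, hN⟩ : ∃ N, N = Nat.log 2 n := ⟨_, rfl⟩
  have h1 : 1200 * (2 * c + 9) ≤ N := by
    rw [hN]; exact Nat.le_log_of_pow_le (by norm_num) hn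
  have h2 : n < 2 ^ (N + 1) := by rw [hN]; exact Nat.lt_pow_succ_log_self (by norm_num) _
  rw [← hN] at hb
  have hc : c < 2 ^ c := Nat.lt_two_pow_self
  have h6 : n ^ c + c ≤ 2 ^ ((N + 1) * c + c) := by
    have h3 : n ^ c ≤ 2 ^ ((N + 1) * c) := by
      rw [pow_mul]; exact Nat.pow_le_pow_left h2.le c
    rw [pow_add]
    have hx : 1 ≤ 2 ^ ((N + 1) * c) := Nat.one_le_two_pow
    nlinarith
  have h7 := (Nat.pow_le_pow_iff_right (by norm_num : 1 < 2)).1 (hb.trans (hL.trans h6))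
  have h8 : N * (2 * c + 9) ≤ N ^ 2 / 1200 := by
    rw [Nat.le_div_iff_mul_le (by norm_num), pow_two]
    calc N * (2 * c + 9) * 1200 = N * (1200 * (2 * c + 9)) := by ring
      _ ≤ N * N := Nat.mul_le_mul_left _ h1
  have h9 : N * (2 * c + 9) = N * c + (N * c + N * 9) := by ring
  have h10 : c ≤ N * c := Nat.le_mul_of_pos_left c (by omega)
  have h11 : (N + 1) * c = N * c + c := by ring
  omega

/-- The threshold for `big`. -/
theorem exists_big (c : ℕ) : ∃ N₀ : ℕ, ∀ n ≥ N₀, 2 ^ (1200 * (2 * c + 9)) ≤ n ∧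
    10 ^ 4 ≤ Nat.log 2 n := by
  refine ⟨2 ^ (1200 * (2 * c + 9)), fun n hn => ⟨hn, ?_⟩⟩
  have h1 : 1200 * (2 * c + 9) ≤ Nat.log 2 n := Nat.le_log_of_pow_le (by norm_num) hn
  omega

end Pool.Agent.TH708.Ips
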