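import Pool.Agent.TH708.Ips.Red

set_option autoImplicit false
set_option linter.unusedSectionVars false

/-!
# Narrow computations of functions of the number of pairs
-/

namespace Pool.Agent.TH708.Ips

open Finset
open Pool.Agent.TH708.Ari

variable {K : Type} [Field K] {n : ℕ}

/-- At Boolean points the function is `φ` of the number of pairs. -/
def IsCount (φ : ℕ → K) (F : (Fin n ⊕ (Fin n × Fin n) → K) → K) : Prop :=
  ∀ p, (∀ v, p v = 0 ∨ p v = 1) → F p = φ (pairs p).card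

theorem newton (φ : ℕ → K) (k : ℕ) :
    φ k = ∑ s ∈ range (k + 1), (k.choose s : K) * (fwdDiff 1)^[s] φ 0 := by
  have h := shift_eq_sum_fwdDiff_iter (1 : ℕ) φ k 0
  simp only [smul_eq_mul, mul_one, zero_add] at h
  rw [h]
  exact sum_congr rfl fun s _ => by rw [nsmul_eq_mul]

theorem full_of_count (F : (Fin n ⊕ (Fin n × Fin n) → K) → K) (φ : ℕ → K)
    (hF : IsCount φ F) (W : Finset (Fin n)) (hφ : ∀ s, 2 * s ≤ W.card → (fwdDiff 1)^[s] φ 0 ≠ 0)
    (Y : Finset ↥W) (hY : 2 * Y.card = W.card) :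
    ∃ ρ : Fin n ⊕ (Fin n × Fin n) → K, ∀ r,
      RkLe Y r (fun x => F (point (fun i : ↥W => Sum.inl i.1) ρ x)) → 2 ^ Y.card ≤ r :=
  fn_full_count F φ (fun s => (fwdDiff 1)^[s] φ 0) W Y hY hF (fun s hs => hφ s (by omega))
    (fun k _ => newton φ k)

/-- **Width against size.** -/
theorem narrow_ckt (C : Ckt K (Fin n ⊕ (Fin n × Fin n))) (φ : ℕ → K) (hF : IsCount φ C.eval)
    (W : Finset (Fin n)) (hφ : ∀ s, 2 * s ≤ W.card → (fwdDiff 1)^[s] φ 0 ≠ 0)
    (hd : ∀ i ∈ W, C.deg (Sum.inl i) ≤ 1) (w : ℕ) (hw : C.Width w) :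
    (Nat.log 2 W.card) ^ 2 ≤ 2 ^ 40 * ((Nat.log 2 w + 1) * (Nat.log 2 C.size + 1)) := by
  classical
  rcases Nat.eq_zero_or_pos W.card with h0 | hpos
  · rw [h0]; simp
  obtain ⟨W', hW', hc⟩ := exists_subset_card_eq (Nat.pow_log_le_self 2 hpos.ne')
  refine lower_bound C (fun i : ↥W' => (Sum.inl i.1 : Fin n ⊕ (Fin n × Fin n)))
    (fun a b h => Subtype.ext (Sum.inl_injective h)) (Nat.log 2 W.card) w
    (by rw [Fintype.card_coe, hc]) hw (fun i => hd i.1 (hW' i.2)) fun Y hY => ?_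
  exact full_of_count C.eval φ hF W' (fun s hs => hφ s (hs.trans (card_le_card hW'))) Y
    (by rw [hY, hc])

/-- **Narrow programs are long.** -/
theorem narrow_prog {w L m : ℕ} (P : Prog K (Fin n ⊕ (Fin n × Fin n)) w) (φ : ℕ → K)
    (hF : IsCount φ (P.eval L)) (T : Finset (Fin n))
    (hφ : ∀ s, 2 * s ≤ T.card → (fwdDiff 1)^[s] φ 0 ≠ 0)
    (hT : 10 ^ 4 ≤ Nat.log 2 T.card) (hw : w ^ 128 ≤ T.card) (hm : m ^ 4 ≤ T.card ^ 3)
    (hv : ∀ d v u ℓ, P.edge d v u = some ℓ → (T.filter fun i => Sum.inl i ∈ ℓ.vars).card ≤ m)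
    (hd : ∀ i ∈ T, P.deg (Sum.inl i) L P.src ≤ 1) :
    2 ^ ((Nat.log 2 T.card) ^ 2 / 1200) ≤ L := by
  classical
  obtain ⟨N, hN⟩ : ∃ N, N = Nat.log 2 T.card := ⟨_, rfl⟩
  rw [← hN] at hT ⊢
  obtain ⟨r, hr⟩ : ∃ r, r = N / 200 := ⟨_, rfl⟩
  have hr50 : 50 ≤ r := by omega
  have hpos : T.card ≠ 0 := by
    intro h0
    rw [h0] at hN
    simp at hN
    omega
  have hlt : T.card < 2 ^ (N + 1) := by rw [hN]; exact Nat.lt_pow_succ_log_self (by norm_num) _
  obtain ⟨T', hT', hc⟩ := exists_subset_card_eq (Nat.pow_log_le_self 2 hpos)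
  rw [← hN] at hc
  have hw' : w ≤ 2 ^ (2 * r) := by
    by_contra h
    push Not at h
    have h1 : (2 ^ (2 * r)) ^ 128 < w ^ 128 := Nat.pow_lt_pow_left h (by norm_num)
    have h2 : (2 ^ (2 * r)) ^ 128 = 2 ^ (256 * r) := by rw [← pow_mul]; congr 1; ring
    have h3 : 2 ^ (N + 1) ≤ 2 ^ (256 * r) := Nat.pow_le_pow_right (by norm_num) (by omega)
    omega
  have hm' : m ≤ 2 ^ (154 * r) := by
    by_contra h
    push Not at h
    have h1 : (2 ^ (154 * r)) ^ 4 < m ^ 4 := Nat.pow_lt_pow_left h (by norm_num)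
    have h2 : (2 ^ (154 * r)) ^ 4 = 2 ^ (616 * r) := by rw [← pow_mul]; congr 1; ring
    have h3 : 2 ^ (3 * (N + 1)) ≤ 2 ^ (616 * r) := Nat.pow_le_pow_right (by norm_num) (by omega)
    have h4 : T.card ^ 3 ≤ (2 ^ (N + 1)) ^ 3 := Nat.pow_le_pow_left hlt.le 3
    have h5 : (2 ^ (N + 1)) ^ 3 = 2 ^ (3 * (N + 1)) := by rw [← pow_mul]; congr 1; ring
    omega
  have hmain := prog_lower (P := P)
    (e := fun i : ↥T' => (Sum.inl i.1 : Fin n ⊕ (Fin n × Fin n)))
    (fun a b h => Subtype.ext (Sum.inl_injective h)) N L m r hr hr50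
    (by rw [Fintype.card_coe, hc]) (by
      intro d v u ℓ hℓ
      refine le_trans ?_ (hv d v u ℓ hℓ)
      apply card_le_card_of_injOn (fun i : ↥T' => i.1)
      · intro i hi
        rw [mem_coe, mem_filter] at hi
        rw [mem_coe, mem_filter]
        exact ⟨hT' i.2, hi.2⟩
      · intro a _ b _ hab
        exact Subtype.ext hab) (fun i => hd i.1 (hT' i.2)) (fun Y hY =>
      full_of_count (P.eval L) φ hF T' (fun s hs => hφ s (hs.trans (card_le_card hT'))) Y
        (by rw [hY, hc])) hw' hm'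
  refine le_trans (Nat.pow_le_pow_right (by norm_num) ?_) hmain.le
  have h1 : N ≤ 204 * r := by omega
  have h2 : N ^ 2 ≤ (204 * r) ^ 2 := Nat.pow_le_pow_left h1 2
  have h3 : (204 * r) ^ 2 = 41616 * r ^ 2 := by ring
  omega

/-- The function inverts the bilinear form minus `β` at the Boolean points. -/
def Inverts (β : K) (F : (Fin n ⊕ (Fin n × Fin n) → K) → K) : Prop :=
  ∀ p, (∀ v, p v = 0 ∨ p v = 1) →
    F p * (∑ i, ∑ j, p (Sum.inr (i, j)) * p (Sum.inl i) * p (Sum.inl j) - β) = 1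

/-- The polynomial `∑ i j, z i j * x i * x j - β`; `x i` is `Sum.inl i`, `z i j` is
`Sum.inr (i, j)`. -/
noncomputable def form (n : ℕ) (β : K) : MvPolynomial (Fin n ⊕ (Fin n × Fin n)) K :=
  ∑ i : Fin n, ∑ j : Fin n, MvPolynomial.X (Sum.inr (i, j)) * MvPolynomial.X (Sum.inl i) *
    MvPolynomial.X (Sum.inl j) - MvPolynomial.C β

/-- The polynomial `∏ i j, (1 + c * z i j * x i * x j)`. -/
noncomputable def prodForm (n : ℕ) (c : K) : MvPolynomial (Fin n ⊕ (Fin n × Fin n)) K :=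
  ∏ i : Fin n, ∏ j : Fin n, (1 + MvPolynomial.C c * (MvPolynomial.X (Sum.inr (i, j)) *
    MvPolynomial.X (Sum.inl i) * MvPolynomial.X (Sum.inl j)))

/-- `f` and `h` are a linear algebraic refutation of the equation `g = 0` in Boolean variables. -/
def Refutes {I : Type} [Fintype I] (g f : MvPolynomial I K) (h : I → MvPolynomial I K) : Prop :=
  f * g + ∑ v, h v * (MvPolynomial.X v ^ 2 - MvPolynomial.X v) = 1

theorem Refutes.eval {I : Type} [Fintype I] {g f : MvPolynomial I K} {h : I → MvPolynomial I K}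
    (H : Refutes g f h) (p : I → K) (hp : ∀ v, p v = 0 ∨ p v = 1) :
    MvPolynomial.eval p f * MvPolynomial.eval p g = 1 := by
  have h1 := congrArg (MvPolynomial.eval p) H
  simp only [map_add, map_mul, map_sub, map_sum, map_pow, MvPolynomial.eval_X, map_one] at h1
  have h2 : ∑ v, MvPolynomial.eval p (h v) * (p v ^ 2 - p v) = 0 := by
    apply sum_eq_zero
    intro v _
    rcases hp v with h3 | h3 <;> rw [h3] <;> ring
  rw [h2, add_zero] at h1
  exact h1

theorem Refutes.inverts {β : K} {f : MvPolynomial (Fin n ⊕ (Fin n × Fin n)) K}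
    {h : Fin n ⊕ (Fin n × Fin n) → MvPolynomial (Fin n ⊕ (Fin n × Fin n)) K}
    (H : Refutes (form n β) f h) {F : (Fin n ⊕ (Fin n × Fin n) → K) → K}
    (hF : ∀ p, (∀ v, p v = 0 ∨ p v = 1) → F p = MvPolynomial.eval p f) : Inverts β F := by
  intro p hp
  have h1 := H.eval p hp
  rw [hF p hp]
  simpa only [form, map_mul, map_sub, map_sum, MvPolynomial.eval_X, MvPolynomial.eval_C] using h1

theorem Inverts.isCount {β : K} {F : (Fin n ⊕ (Fin n × Fin n) → K) → K} (h : Inverts β F) :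
    IsCount (fun k => ((k : K) - β)⁻¹) F := by
  intro p hp
  have h1 := h p hp
  rw [form_eq p hp] at h1
  exact eq_inv_of_mul_eq_one_left h1

theorem Inverts.ne {β : K} {F : (Fin n ⊕ (Fin n × Fin n) → K) → K} (h : Inverts β F)
    (k : ℕ) (hk : k ≤ n) : (k : K) - β ≠ 0 := by
  obtain ⟨p, hp, hc⟩ := exists_pairs (K := K) k hk
  have h1 := h p hp
  rw [form_eq p hp, hc] at h1
  intro h0
  rw [h0, mul_zero] at h1
  exact zero_ne_one h1

theorem Inverts.diff {β : K} {F : (Fin n ⊕ (Fin n × Fin n) → K) → K} (h : Inverts β F)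
    (s : ℕ) (hs : s ≤ n) (hfac : (s.factorial : K) ≠ 0) :
    (fwdDiff 1)^[s] (fun k : ℕ => ((k : K) - β)⁻¹) 0 ≠ 0 := by
  have h1 : (fwdDiff 1)^[s] (fun k : ℕ => ((k : K) - β)⁻¹) 0 =
      (fwdDiff (1 : K))^[s] (fun x => x⁻¹) (-β) := by
    rw [fwdDiff_iter_eq_sum_shift, fwdDiff_iter_eq_sum_shift]
    apply sum_congr rfl
    intro k _
    congr 2
    simp only [zero_add, smul_eq_mul, mul_one, nsmul_eq_mul]
    ring
  have hne : ∀ j ≤ s, -β + (j : K) ≠ 0 := by
    intro j hj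
    rw [neg_add_eq_sub]
    exact h.ne j (hj.trans hs)
  rw [h1, diff_inv s (-β) hne]
  apply div_ne_zero
  · exact mul_ne_zero (pow_ne_zero _ (neg_ne_zero.2 one_ne_zero)) hfac
  · rw [prod_ne_zero_iff]
    intro j hj
    rw [mem_range] at hj
    exact hne j (by omega)

/-- The function inverts the product of the `1 + c z_ij x_i x_j` at the Boolean points. -/
def InvertsProd (c : K) (F : (Fin n ⊕ (Fin n × Fin n) → K) → K) : Prop :=
  ∀ p, (∀ v, p v = 0 ∨ p v = 1) →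
    F p * ∏ i, ∏ j, (1 + c * (p (Sum.inr (i, j)) * p (Sum.inl i) * p (Sum.inl j))) = 1

theorem Refutes.invertsProd {c : K} {f : MvPolynomial (Fin n ⊕ (Fin n × Fin n)) K}
    {h : Fin n ⊕ (Fin n × Fin n) → MvPolynomial (Fin n ⊕ (Fin n × Fin n)) K}
    (H : Refutes (prodForm n c) f h) {F : (Fin n ⊕ (Fin n × Fin n) → K) → K}
    (hF : ∀ p, (∀ v, p v = 0 ∨ p v = 1) → F p = MvPolynomial.eval p f) : InvertsProd c F := by
  intro p hp
  have h1 := H.eval p hp
  rw [hF p hp]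
  simpa only [prodForm, map_mul, map_add, map_one, map_prod, MvPolynomial.eval_X,
    MvPolynomial.eval_C] using h1

theorem InvertsProd.isCount {c : K} {F : (Fin n ⊕ (Fin n × Fin n) → K) → K}
    (h : InvertsProd c F) : IsCount (fun k => ((1 + c)⁻¹) ^ k) F := by
  intro p hp
  have h1 := h p hp
  rw [prod_eq c p hp] at h1
  simp only
  rw [inv_pow]
  exact eq_inv_of_mul_eq_one_left h1

theorem diff_pow (t : K) (s : ℕ) (y : ℕ) :
    (fwdDiff 1)^[s] (fun k : ℕ => t ^ k) y = (t - 1) ^ s * t ^ y := by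
  induction s generalizing y with
  | zero => simp
  | succ s ih =>
    rw [Function.iterate_succ_apply']
    unfold fwdDiff at ih ⊢
    rw [ih, ih, pow_succ t, pow_succ (t - 1)]
    ring

theorem inv_ne_one {c : K} (hc : c ≠ 0) : (1 + c)⁻¹ - 1 ≠ 0 := by
  rw [sub_ne_zero]
  intro h
  rw [inv_eq_one] at h
  exact hc (by linear_combination h)

end Pool.Agent.TH708.Ips
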