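import Pool.Agent.TH708.Ips.Main

set_option autoImplicit false
set_option linter.unusedSectionVars false

/-!
# A short refutation of width one that reads variables many times
-/

namespace Pool.Agent.TH708.Ips

open Finset
open Pool.Agent.TH708.Ari

variable {K : Type} [Field K] {n : ℕ}

/-- A polynomial that is the inverse of `g` at the Boolean points is the main coefficient of a
refutation. -/
theorem exists_refutes {I : Type} [Fintype I] [DecidableEq I] (g f : MvPolynomial I K)
    (H : ∀ p : I → K, (∀ v, p v = 0 ∨ p v = 1) →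
      MvPolynomial.eval p f * MvPolynomial.eval p g = 1) :
    ∃ h, Refutes g f h := by
  classical
  obtain ⟨h, -, h2⟩ := MvPolynomial.combinatorial_nullstellensatz_exists_linearCombination
    (R := K) (fun _ : I => ({0, 1} : Finset K)) (fun _ => ⟨0, by simp⟩) (1 - f * g) (by
      intro s hs
      have h3 := H s (fun v => by simpa using hs v)
      simp only [map_sub, map_one, map_mul, h3, sub_self])
  refine ⟨h, ?_⟩
  unfold Refutes
  rw [Finsupp.linearCombination_apply, Finsupp.sum_fintype _ _ (by simp)] at h2
  have h4 : ∀ v : I, h v • ∏ r ∈ ({0, 1} : Finset K), (MvPolynomial.X v - MvPolynomial.C r) =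
      h v * (MvPolynomial.X v ^ 2 - MvPolynomial.X v) := by
    intro v
    rw [prod_pair zero_ne_one, map_zero, map_one, smul_eq_mul]
    ring
  rw [sum_congr rfl fun v _ => h4 v] at h2
  rw [← h2]
  ring

/-- The label of a pair. -/
noncomputable def pairLabel (c : K) (q : Fin n × Fin n) :
    Label K (Fin n ⊕ (Fin n × Fin n)) where
  const := 0
  coef := fun _ => 0
  vars := {Sum.inr q, Sum.inl q.1, Sum.inl q.2}
  fn := fun z => 1 + c * (z (Sum.inr q) * z (Sum.inl q.1) * z (Sum.inl q.2))
  dep := by
    intro z z' h
    rw [h (Sum.inr q) (by simp), h (Sum.inl q.1) (by simp), h (Sum.inl q.2) (by simp)]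

/-- The program of width one with the product of the labels of all pairs as its value. -/
noncomputable def prodProg (n : ℕ) (c : K) : Prog K (Fin n ⊕ (Fin n × Fin n)) 1 where
  edge := fun d _ _ => if h : d < n * n then
    some (pairLabel c (finProdFinEquiv.symm ⟨d, h⟩)) else none
  src := 0
  snk := 0

theorem prodProg_eval (c : K) (z : Fin n ⊕ (Fin n × Fin n) → K) :
    (prodProg n c).eval (n * n) z =
      ∏ i, ∏ j, (1 + c * (z (Sum.inr (i, j)) * z (Sum.inl i) * z (Sum.inl j))) := by
  classical
  have h1 : ∀ d, d ≤ n * n → (prodProg n c).tail z d 0 =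
      ∏ k ∈ range d, if h : k < n * n then (pairLabel c (finProdFinEquiv.symm ⟨k, h⟩)).eval z
        else 1 := by
    intro d
    induction d with
    | zero =>
      intro _
      simp [Prog.tail, prodProg]
    | succ d ih =>
      intro hd
      rw [prod_range_succ, ← ih (by omega), dif_pos (by omega)]
      simp only [Prog.tail, Fin.isValue, univ_unique, Fin.default_eq_zero, sum_singleton]
      have h2 : (prodProg n c).edge d 0 0 =
          some (pairLabel c (finProdFinEquiv.symm ⟨d, by omega⟩)) := by
        simp only [prodProg]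
        rw [dif_pos (by omega)]
      rw [h2]
      ring
  show (prodProg n c).tail z (n * n) 0 = _
  rw [h1 _ le_rfl, ← Finset.prod_product', Finset.univ_product_univ]
  rw [← Fin.prod_univ_eq_prod_range (fun k => if h : k < n * n then
    (pairLabel c (finProdFinEquiv.symm ⟨k, h⟩)).eval z else 1) (n * n)]
  rw [← Equiv.prod_comp finProdFinEquiv.symm]
  apply prod_congr rfl
  intro k _
  simp only [k.2, dite_true, Fin.eta]
  simp [Label.eval, pairLabel]

/-- The short refutation. -/
theorem short (n : ℕ) (c : K) (hc : 1 + c ≠ 0) :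
    ∃ (P : Prog K (Fin n ⊕ (Fin n × Fin n)) 1)
      (f : MvPolynomial (Fin n ⊕ (Fin n × Fin n)) K)
      (h : Fin n ⊕ (Fin n × Fin n) → MvPolynomial (Fin n ⊕ (Fin n × Fin n)) K),
      Refutes (prodForm n c) f h ∧ (∀ p, P.eval (n * n) p = MvPolynomial.eval p f) ∧
      (∀ d v u ℓ, P.edge d v u = some ℓ →
        (univ.filter fun i : Fin n => Sum.inl i ∈ ℓ.vars).card ≤ 2) := by
  classical
  obtain ⟨t, ht⟩ : ∃ t, t = -c / (1 + c) := ⟨_, rfl⟩
  have h1 : (1 + t) * (1 + c) = 1 := by
    rw [ht]
    field_simp
    ring
  obtain ⟨h, hh⟩ := exists_refutes (prodForm n c) (prodForm n t) (by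
    intro p hp
    simp only [prodForm, map_mul, map_add, map_one, map_prod, MvPolynomial.eval_X,
      MvPolynomial.eval_C]
    rw [prod_eq c p hp, prod_eq t p hp, ← mul_pow, h1, one_pow])
  refine ⟨prodProg n t, prodForm n t, h, hh, ?_, ?_⟩
  · intro p
    rw [prodProg_eval]
    simp only [prodForm, map_mul, map_add, map_one, map_prod, MvPolynomial.eval_X,
      MvPolynomial.eval_C]
  · intro d v u ℓ hℓ
    simp only [prodProg] at hℓ
    split_ifs at hℓ with hd
    rw [Option.some.injEq] at hℓ
    rw [← hℓ]
    set q := finProdFinEquiv.symm (⟨d, hd⟩ : Fin (n * n)) with hq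
    have h2 : (univ.filter fun i : Fin n => Sum.inl i ∈ (pairLabel t q).vars) ⊆ {q.1, q.2} := by
      intro i hi
      rw [mem_filter] at hi
      simpa [pairLabel] using hi.2
    exact (card_le_card h2).trans card_le_two

end Pool.Agent.TH708.Ips
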