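import Mathlib
import Pool.Agent.TH708.Ari.Defs

set_option autoImplicit false

/-!
# Functions of the number of matched pairs have full rank
-/

namespace Pool.Agent.TH708.Ips

open Finset
open Pool.Agent.TH708.Ari

/-- zeta matrix of the order `false ≤ true` -/
def zz {K : Type} [Field K] (b b' : Bool) : K := if b' = true ∧ b = false then 0 else 1

/-- its inverse -/
def zi {K : Type} [Field K] (b b' : Bool) : K :=
  if b = b' then 1 else if b = true then -1 else 0

lemma zz_zi {K : Type} [Field K] (b b' : Bool) :
    ∑ x : Bool, zz (K := K) b x * zi x b' = if b = b' then 1 else 0 := by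
  rw [Fintype.sum_bool]
  cases b <;> cases b' <;> simp [zz, zi]

/-- sums over boolean vectors are sums over finite sets -/
lemma sum_bool_fun {Y K : Type} [Fintype Y] [DecidableEq Y] [Field K] (g : (Y → Bool) → K) :
    ∑ w : Y → Bool, g w = ∑ S : Finset Y, g (fun y => decide (y ∈ S)) := by
  symm
  apply Fintype.sum_bijective (fun S : Finset Y => fun y => decide (y ∈ S))
  · constructor
    · intro S T h
      ext y
      have := congrFun h y
      simpa using this
    · intro w
      refine ⟨univ.filter fun y => w y = true, ?_⟩
      funext y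
      simp
  · intro S
    rfl

/-- **Full rank.** A function of the number of pairs `y, σ y` with both values true has full rank,
if the Newton coefficients `c` of the function do not vanish. -/
theorem full_count {V K : Type} [DecidableEq V] [Fintype V] [Field K] (Y : Finset V)
    (σ : V → V) (hσ : ∀ y ∈ Y, σ y ∉ Y) (hinj : Set.InjOn σ Y) (φ c : ℕ → K)
    (hc : ∀ s ≤ Y.card, c s ≠ 0)
    (hφ : ∀ k ≤ Y.card, φ k = ∑ s ∈ range (k + 1), (k.choose s : K) * c s)
    (F : (V → Bool) → K)
    (hF : ∀ x, F x = φ ((Y.filter fun y => x y = true ∧ x (σ y) = true).card))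
    (r : ℕ) (hr : RkLe Y r F) : 2 ^ Y.card ≤ r := by
  classical
  obtain ⟨ι, _, a, b, hcard, ha, hb, hab⟩ := hr
  let U := Y → Bool
  let pt : U → U → V → Bool := fun u v z =>
    if h : z ∈ Y then u ⟨z, h⟩ else if h' : ∃ y : Y, σ y = z then v h'.choose else false
  have hpt1 : ∀ u v (y : Y), pt u v y = u y := by
    intro u v y
    simp only [pt, y.2, dif_pos]
  have hpt2 : ∀ u v (y : Y), pt u v (σ y) = v y := by
    intro u v y
    have h1 : σ y ∉ Y := hσ y y.2
    have h2 : ∃ y' : Y, σ y' = σ y := ⟨y, rfl⟩
    simp only [pt, h1, dif_neg, not_false_eq_true, h2, dif_pos]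
    congr 1
    exact Subtype.ext (hinj h2.choose.2 y.2 h2.choose_spec)
  let Z : Matrix U U K := Matrix.of fun u v => ∏ y, zz (u y) (v y)
  let Z' : Matrix U U K := Matrix.of fun u v => ∏ y, zi (u y) (v y)
  have hZZ' : Z * Z' = 1 := by
    ext u w
    rw [Matrix.mul_apply]
    have h1 : ∀ v : U, Z u v * Z' v w = ∏ y, (zz (u y) (v y) * zi (v y) (w y)) := by
      intro v
      change (∏ y, zz (u y) (v y)) * (∏ y, zi (v y) (w y)) = _
      rw [Finset.prod_mul_distrib]
    rw [Finset.sum_congr rfl (fun v _ => h1 v)]
    have h2 := Finset.prod_univ_sum (fun _ : Y => (univ : Finset Bool))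
      (fun y x => zz (K := K) (u y) x * zi x (w y))
    rw [Fintype.piFinset_univ] at h2
    rw [← h2]
    rw [Finset.prod_congr rfl (fun y _ => zz_zi (u y) (w y))]
    rw [Matrix.one_apply]
    by_cases huw : u = w
    · subst huw; simp
    · rw [if_neg huw]
      obtain ⟨y, hy⟩ := Function.ne_iff.1 huw
      apply Finset.prod_eq_zero (Finset.mem_univ y)
      rw [if_neg hy]
  have hZ'Z : Z' * Z = 1 := mul_eq_one_comm.1 hZZ'
  let cnt : U → ℕ := fun w => (univ.filter fun y => w y = true).card
  have hcnt : ∀ w, cnt w ≤ Y.card := by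
    intro w
    have h := card_filter_le (univ : Finset Y) fun y => w y = true
    rw [card_univ, Fintype.card_coe] at h
    exact h
  let D : Matrix U U K := Matrix.diagonal fun w => c (cnt w)
  let D' : Matrix U U K := Matrix.diagonal fun w => (c (cnt w))⁻¹
  have hDD' : D * D' = 1 := by
    rw [Matrix.diagonal_mul_diagonal]
    rw [← Matrix.diagonal_one]
    congr 1
    funext w
    exact mul_inv_cancel₀ (hc _ (hcnt w))
  let A : Matrix U ι K := Matrix.of fun u i => a i (pt u (fun _ => false))
  let B : Matrix ι U K := Matrix.of fun i v => b i (pt (fun _ => false) v)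
  have hval : ∀ u v : U, φ ((univ.filter fun y : Y => u y = true ∧ v y = true).card) =
      (Z * D * Z.transpose) u v := by
    intro u v
    rw [Matrix.mul_apply]
    have h1 : ∀ w : U, (Z * D) u w * Z.transpose w v =
        (∏ y, zz (K := K) (u y) (w y)) * c (cnt w) * ∏ y, zz (K := K) (v y) (w y) := by
      intro w
      rw [Matrix.mul_diagonal]
      rfl
    rw [sum_congr rfl fun w _ => h1 w]
    rw [sum_bool_fun]
    set T : Finset Y := univ.filter fun y : Y => u y = true ∧ v y = true with hT
    have h2 : ∀ S : Finset Y,
        (∏ y, zz (K := K) (u y) (decide (y ∈ S))) * c (cnt fun y => decide (y ∈ S)) *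
          (∏ y, zz (K := K) (v y) (decide (y ∈ S))) =
        if S ⊆ T then c S.card else 0 := by
      intro S
      have h3 : cnt (fun y => decide (y ∈ S)) = S.card := by
        simp only [cnt]
        congr 1
        ext y
        simp
      rw [h3]
      by_cases hS : S ⊆ T
      · rw [if_pos hS]
        have h4 : ∀ (u' : U), (∀ y ∈ S, u' y = true) →
            (∏ y, zz (K := K) (u' y) (decide (y ∈ S))) = 1 := by
          intro u' hu'
          apply prod_eq_one
          intro y _
          unfold zz
          rw [if_neg]
          rintro ⟨h5, h6⟩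
          rw [hu' y (by simpa using h5)] at h6
          simp at h6
        rw [h4 u fun y hy => (mem_filter.1 (hS hy)).2.1, h4 v fun y hy => (mem_filter.1 (hS hy)).2.2]
        ring
      · rw [if_neg hS]
        obtain ⟨y, hy, hyT⟩ := not_subset.1 hS
        have h5 : u y = false ∨ v y = false := by
          by_contra hcon
          push Not at hcon
          apply hyT
          rw [hT, mem_filter]
          exact ⟨mem_univ _, by simpa using hcon.1, by simpa using hcon.2⟩
        rcases h5 with h5 | h5
        · have : (∏ y, zz (K := K) (u y) (decide (y ∈ S))) = 0 := by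
            apply prod_eq_zero (mem_univ y)
            unfold zz
            rw [if_pos ⟨by simpa using hy, h5⟩]
          rw [this]; ring
        · have : (∏ y, zz (K := K) (v y) (decide (y ∈ S))) = 0 := by
            apply prod_eq_zero (mem_univ y)
            unfold zz
            rw [if_pos ⟨by simpa using hy, h5⟩]
          rw [this]; ring
    rw [sum_congr rfl fun S _ => h2 S]
    rw [← sum_filter]
    have h6 : (univ.filter fun S : Finset Y => S ⊆ T) = T.powerset := by
      ext S
      simp
    rw [h6, sum_powerset_apply_card]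
    rw [hφ _ (by
      have h := card_filter_le (univ : Finset Y) fun y => u y = true ∧ v y = true
      rw [card_univ, Fintype.card_coe] at h
      exact h)]
    apply sum_congr rfl
    intro s _
    rw [nsmul_eq_mul]
  have hAB : A * B = Z * D * Z.transpose := by
    ext u v
    rw [Matrix.mul_apply, ← hval u v]
    have h1 : F (pt u v) = φ ((univ.filter fun y : Y => u y = true ∧ v y = true).card) := by
      rw [hF]
      congr 1
      symm
      apply card_bij (fun y _ => y.1)
      · intro y hy
        rw [mem_filter] at hy ⊢
        rw [hpt1, hpt2]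
        exact ⟨y.2, hy.2⟩
      · intro y _ y' _ h
        exact Subtype.ext h
      · intro z hz
        rw [mem_filter] at hz
        refine ⟨⟨z, hz.1⟩, ?_, rfl⟩
        rw [mem_filter]
        have e1 := hpt1 u v ⟨z, hz.1⟩
        have e2 := hpt2 u v ⟨z, hz.1⟩
        simp only at e1 e2
        exact ⟨mem_univ _, e1.symm.trans hz.2.1, e2.symm.trans hz.2.2⟩
    rw [← h1, hab]
    apply Finset.sum_congr rfl
    intro i _
    change a i (pt u (fun _ => false)) * b i (pt (fun _ => false) v) = _
    congr 1
    · apply ha i
      intro z hz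
      have e1 : pt u (fun _ => false) z = u ⟨z, hz⟩ := hpt1 u (fun _ => false) ⟨z, hz⟩
      have e2 : pt u v z = u ⟨z, hz⟩ := hpt1 u v ⟨z, hz⟩
      rw [e1, e2]
    · apply hb i
      intro z hz
      have hz' : z ∉ Y := (mem_sdiff.1 hz).2
      simp only [pt, hz', dif_neg, not_false_eq_true]
  have hone : (1 : Matrix U U K) = (Z' * A) * (B * (Z'.transpose * D')) := by
    have h1 : (Z' * A) * (B * (Z'.transpose * D')) = Z' * (A * B) * Z'.transpose * D' := by
      simp only [Matrix.mul_assoc]
    rw [h1, hAB]
    have h2 : Z' * (Z * D * Z.transpose) * Z'.transpose * D' =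
        (Z' * Z) * D * (Z.transpose * Z'.transpose) * D' := by
      simp only [Matrix.mul_assoc]
    rw [h2, hZ'Z, ← Matrix.transpose_mul, hZ'Z, Matrix.transpose_one, Matrix.one_mul,
      Matrix.mul_one, hDD']
  have h1 : (1 : Matrix U U K).rank = 2 ^ Y.card := by
    rw [Matrix.rank_one]
    simp [U]
  have h2 : (1 : Matrix U U K).rank ≤ Fintype.card ι := by
    rw [hone]
    exact (Matrix.rank_mul_le_left _ _).trans (Matrix.rank_le_card_width (Z' * A))
  rw [h1] at h2
  exact h2.trans hcard

end Pool.Agent.TH708.Ips
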