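import Pool.Agent.TH708.Ips.Rank
import Pool.Agent.TH708.Ari.ProgPerm

set_option autoImplicit false
set_option linter.unusedSectionVars false

/-!
# Inverses of bilinear forms on the Boolean cube
-/

namespace Pool.Agent.TH708.Ips

open Finset
open Pool.Agent.TH708.Ari

variable {K : Type} [Field K] {n : ℕ}

open Classical in
/-- The pairs `(i, j)` with `z i j = x i = x j = 1`. -/
noncomputable def pairs (p : Fin n ⊕ (Fin n × Fin n) → K) : Finset (Fin n × Fin n) :=
  univ.filter fun q => p (Sum.inr q) = 1 ∧ p (Sum.inl q.1) = 1 ∧ p (Sum.inl q.2) = 1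

theorem fn_full_count (F : (Fin n ⊕ (Fin n × Fin n) → K) → K) (φ c : ℕ → K)
    (W : Finset (Fin n)) (Y : Finset ↥W) (hY : 2 * Y.card = W.card)
    (hF : ∀ p, (∀ v, p v = 0 ∨ p v = 1) → F p = φ (pairs p).card)
    (hc : ∀ s ≤ Y.card, c s ≠ 0)
    (hφ : ∀ k ≤ Y.card, φ k = ∑ s ∈ range (k + 1), (k.choose s : K) * c s) :
    ∃ ρ : Fin n ⊕ (Fin n × Fin n) → K, ∀ r,
      RkLe Y r (fun x => F (point (fun i : ↥W => Sum.inl i.1) ρ x)) → 2 ^ Y.card ≤ r := by
  classical
  obtain ⟨σ, τ, h1, h2, -, -, -, -⟩ := exists_invol W Y hY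
  have he : Function.Injective (fun i : ↥W => (Sum.inl i.1 : Fin n ⊕ (Fin n × Fin n))) :=
    fun a b h => Subtype.ext (Sum.inl_injective h)
  let ρ : Fin n ⊕ (Fin n × Fin n) → K := Sum.elim (fun _ => 0)
    (fun q => if ∃ y ∈ Y, q = (y.1, (σ y).1) then 1 else 0)
  refine ⟨ρ, fun r hr => ?_⟩
  have hinl : ∀ (x : ↥W → Bool) (i : Fin n),
      point (fun i : ↥W => (Sum.inl i.1 : Fin n ⊕ (Fin n × Fin n))) ρ x (Sum.inl i) =
      if h : i ∈ W then (if x ⟨i, h⟩ = true then 1 else 0) else 0 := by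
    intro x i
    by_cases hi : i ∈ W
    · have := point_e he ρ x ⟨i, hi⟩
      simp only [hi, dite_true]
      exact this
    · rw [point_off]
      · simp [ρ, hi]
      · intro v hv
        exact hi ((Sum.inl_injective hv) ▸ v.2)
  have hinr : ∀ (x : ↥W → Bool) (q : Fin n × Fin n),
      point (fun i : ↥W => (Sum.inl i.1 : Fin n ⊕ (Fin n × Fin n))) ρ x (Sum.inr q) =
      if ∃ y ∈ Y, q = (y.1, (σ y).1) then 1 else 0 := by
    intro x q
    rw [point_off]
    · simp [ρ]
    · intro v hv
      exact absurd hv (by simp)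
  have h01 : ∀ x v, point (fun i : ↥W => (Sum.inl i.1 : Fin n ⊕ (Fin n × Fin n))) ρ x v = 0 ∨
      point (fun i : ↥W => (Sum.inl i.1 : Fin n ⊕ (Fin n × Fin n))) ρ x v = 1 := by
    rintro x (i | q)
    · rw [hinl]
      split_ifs <;> simp
    · rw [hinr]
      split_ifs <;> simp
  refine full_count Y σ h1 h2 φ c hc hφ _ ?_ r hr
  intro x
  show F _ = _
  rw [hF _ (h01 x)]
  congr 1
  symm
  apply card_bij (fun (y : ↥W) _ => ((y.1, (σ y).1) : Fin n × Fin n))
  · intro y hy
    rw [mem_filter] at hy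
    rw [pairs, mem_filter]
    refine ⟨mem_univ _, ?_, ?_, ?_⟩
    · rw [hinr, if_pos ⟨y, hy.1, rfl⟩]
    · rw [hinl, dif_pos y.2, if_pos hy.2.1]
    · rw [hinl, dif_pos (σ y).2, if_pos hy.2.2]
  · intro y _ y' _ h
    exact Subtype.ext (Prod.ext_iff.1 h).1
  · intro q hq
    rw [pairs, mem_filter] at hq
    obtain ⟨-, g1, g2, g3⟩ := hq
    rw [hinr] at g1
    have g4 : ∃ y ∈ Y, q = (y.1, (σ y).1) := by
      by_contra hcon
      rw [if_neg hcon] at g1
      exact one_ne_zero g1.symm
    obtain ⟨y, hy, rfl⟩ := g4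
    refine ⟨y, ?_, rfl⟩
    rw [mem_filter]
    rw [hinl, dif_pos y.2] at g2
    rw [hinl, dif_pos (σ y).2] at g3
    refine ⟨hy, ?_, ?_⟩
    · by_contra hcon
      rw [if_neg hcon] at g2
      exact one_ne_zero g2.symm
    · by_contra hcon
      rw [if_neg hcon] at g3
      exact one_ne_zero g3.symm

/-- points with a given number of pairs -/
theorem exists_pairs (k : ℕ) (hk : k ≤ n) : ∃ p : Fin n ⊕ (Fin n × Fin n) → K,
    (∀ v, p v = 0 ∨ p v = 1) ∧ (pairs p).card = k := by
  classical
  refine ⟨Sum.elim (fun _ => 1) (fun q => if q.1 = q.2 ∧ q.1.1 < k then 1 else 0), ?_, ?_⟩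
  · rintro (i | q)
    · simp
    · simp only [Sum.elim_inr]
      split_ifs <;> simp
  · have h : (range k).card = k := card_range k
    refine Eq.trans (Eq.symm ?_) h
    apply card_bij (fun i hi => ((⟨i, by rw [mem_range] at hi; omega⟩,
      ⟨i, by rw [mem_range] at hi; omega⟩) : Fin n × Fin n))
    · intro i hi
      rw [pairs, mem_filter]
      rw [mem_range] at hi
      simp [hi]
    · intro i _ j _ h
      have := (Prod.ext_iff.1 h).1
      simpa using this
    · intro q hq
      rw [pairs, mem_filter] at hq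
      obtain ⟨-, g1, -, -⟩ := hq
      simp only [Sum.elim_inr] at g1
      have g2 : q.1 = q.2 ∧ q.1.1 < k := by
        by_contra hcon
        rw [if_neg hcon] at g1
        exact one_ne_zero g1.symm
      refine ⟨q.1.1, mem_range.2 g2.2, ?_⟩
      ext
      · rfl
      · simp [g2.1]

/-- The number of pairs is the value of the bilinear form. -/
theorem form_eq (p : Fin n ⊕ (Fin n × Fin n) → K) (hp : ∀ v, p v = 0 ∨ p v = 1) :
    ∑ i, ∑ j, p (Sum.inr (i, j)) * p (Sum.inl i) * p (Sum.inl j) = ((pairs p).card : K) := by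
  classical
  rw [pairs, ← sum_boole, ← Finset.univ_product_univ, sum_product]
  apply sum_congr rfl
  intro i _
  apply sum_congr rfl
  intro j _
  rcases hp (Sum.inr (i, j)) with h1 | h1 <;> rcases hp (Sum.inl i) with h2 | h2 <;>
    rcases hp (Sum.inl j) with h3 | h3 <;> simp [h1, h2, h3]

theorem prod_eq (c : K) (p : Fin n ⊕ (Fin n × Fin n) → K) (hp : ∀ v, p v = 0 ∨ p v = 1) :
    ∏ i, ∏ j, (1 + c * (p (Sum.inr (i, j)) * p (Sum.inl i) * p (Sum.inl j))) =
      (1 + c) ^ (pairs p).card := by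
  classical
  have h0 : ∏ q : Fin n × Fin n, (if p (Sum.inr q) = 1 ∧ p (Sum.inl q.1) = 1 ∧
      p (Sum.inl q.2) = 1 then (1 + c) else 1) = (1 + c) ^ (pairs p).card := by
    rw [prod_ite, prod_const, prod_const_one, mul_one, pairs]
  rw [← h0, ← Finset.univ_product_univ, prod_product]
  apply prod_congr rfl
  intro i _
  apply prod_congr rfl
  intro j _
  rcases hp (Sum.inr (i, j)) with h1 | h1 <;> rcases hp (Sum.inl i) with h2 | h2 <;>
    rcases hp (Sum.inl j) with h3 | h3 <;> simp [h1, h2, h3]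

/-- iterated differences of the inverse -/
theorem diff_inv (s : ℕ) : ∀ y : K, (∀ j ≤ s, y + j ≠ 0) →
    (fwdDiff (1 : K))^[s] (fun x => x⁻¹) y =
      (-1) ^ s * (s.factorial : K) / ∏ j ∈ range (s + 1), (y + j) := by
  induction s with
  | zero =>
    intro y hy
    simp
  | succ s ih =>
    intro y hy
    rw [Function.iterate_succ_apply']
    unfold fwdDiff
    have e1 := ih (y + 1) (fun j hj => by
      have := hy (j + 1) (by omega)
      push_cast at this
      rw [add_assoc, add_comm (1 : K)]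
      exact this)
    have e2 := ih y (fun j hj => hy j (by omega))
    unfold fwdDiff at e1 e2
    rw [e1, e2]
    have h1 : ∏ j ∈ range (s + 2), (y + j) = (y + (s + 1 : ℕ)) * ∏ j ∈ range (s + 1), (y + j) := by
      rw [prod_range_succ, mul_comm]
    have h2 : ∏ j ∈ range (s + 2), (y + j) = y * ∏ j ∈ range (s + 1), (y + 1 + j) := by
      rw [prod_range_succ', mul_comm]
      congr 1
      · simp
      · apply prod_congr rfl
        intro j _
        push_cast
        ring
    have hne : ∏ j ∈ range (s + 2), (y + j) ≠ 0 := by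
      rw [prod_ne_zero_iff]
      intro j hj
      rw [mem_range] at hj
      exact hy j (by omega)
    have ha : ∏ j ∈ range (s + 1), (y + j) ≠ 0 := by
      rw [h1] at hne
      exact right_ne_zero_of_mul hne
    have hb : ∏ j ∈ range (s + 1), (y + 1 + j) ≠ 0 := by
      rw [h2] at hne
      exact right_ne_zero_of_mul hne
    rw [div_sub_div _ _ hb ha, div_eq_div_iff (mul_ne_zero hb ha) hne]
    set a := ∏ j ∈ range (s + 1), (y + j) with haa
    set b := ∏ j ∈ range (s + 1), (y + 1 + j) with hbb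
    have h3 : (y + (s + 1 : ℕ)) * a = y * b := h1.symm.trans h2
    rw [h1, Nat.factorial_succ]
    push_cast at h3 ⊢
    have h4 : (a - b) * (y + (s + 1)) = - ((s : K) + 1) * b := by
      linear_combination h3
    linear_combination ((-1) ^ s * (s.factorial : K) * a) * h4

end Pool.Agent.TH708.Ips
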